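import Mathlib
import Pool.Agent.Y734.N.Stms2
import Pool.Agent.Y215.SK.Grps

/-!
Job TOR (helper734, project Y734/N), by helper929: torus closure of sequences of units of number fields.
-/

set_option autoImplicit false
set_option linter.unusedSectionVars false
set_option linter.unusedSimpArgs false

namespace Pool.Agent.Y734.N.TOR

open Pool.Agent.Y734.M Pool.Agent.Y734.N Pool.Agent.Y215.SK Pool.Agent.Helper259.AbsHt
open Filter NumberField Height Module

/-- a linear form which is injective on a finite set -/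
theorem exists_form {T : ℕ} (X : Set (Fin T → ℚ)) (hX : X.Finite) :
    ∃ l : Fin T → ℚ, ∀ x ∈ X, ∀ y ∈ X, (∑ j, l j * x j = ∑ j, l j * y j) → x = y := by
  classical
  let P : (Fin T → ℚ) → Polynomial ℚ := fun x => ∑ j : Fin T, Polynomial.monomial (j : ℕ) (x j)
  have hP : ∀ x, x ≠ 0 → P x ≠ 0 := by
    intro x hx h0
    apply hx
    funext j
    have h1 : (P x).coeff (j : ℕ) = x j := by
      simp only [P, Polynomial.finsetSum_coeff, Polynomial.coeff_monomial]
      rw [Finset.sum_eq_single j]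
      · simp
      · intro b _ hb
        rw [if_neg]
        intro h
        exact hb (Fin.ext h)
      · intro h
        exact absurd (Finset.mem_univ _) h
    rw [← h1, h0, Polynomial.coeff_zero, Pi.zero_apply]
  let F : Finset ((Fin T → ℚ) × (Fin T → ℚ)) :=
    (hX.toFinset ×ˢ hX.toFinset).filter fun z => z.1 ≠ z.2
  have hQ : ∏ z ∈ F, P (z.1 - z.2) ≠ 0 := by
    rw [Finset.prod_ne_zero_iff]
    intro z hz
    exact hP _ (sub_ne_zero.2 (Finset.mem_filter.1 hz).2)
  obtain ⟨s, hs⟩ : ∃ s : ℚ, Polynomial.eval s (∏ z ∈ F, P (z.1 - z.2)) ≠ 0 := by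
    by_contra hcon
    push Not at hcon
    exact hQ (Polynomial.funext fun r => by rw [hcon, Polynomial.eval_zero])
  refine ⟨fun j => s ^ (j : ℕ), fun x hx y hy hxy => ?_⟩
  by_contra hne
  apply hs
  rw [Polynomial.eval_prod, Finset.prod_eq_zero_iff]
  refine ⟨(x, y), Finset.mem_filter.2 ⟨Finset.mem_product.2 ⟨hX.mem_toFinset.2 hx,
    hX.mem_toFinset.2 hy⟩, hne⟩, ?_⟩
  simp only [P, Polynomial.eval_finsetSum, Polynomial.eval_monomial, Pi.sub_apply]
  rw [← sub_eq_zero, ← Finset.sum_sub_distrib] at hxy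
  rw [← hxy]
  refine Finset.sum_congr rfl fun j _ => by ring

/-- a common denominator -/
theorem exists_den' {m : ℕ} (b : Fin m → ℚ) :
    ∃ (N : ℕ) (α : Fin m → ℤ), N ≠ 0 ∧ ∀ i, (α i : ℚ) = N * b i := by
  refine ⟨∏ j, (b j).den, fun i => (b i).num * ((∏ j, (b j).den) / (b i).den : ℕ), ?_, ?_⟩
  · rw [Finset.prod_ne_zero_iff]
    intro j _
    exact (b j).den_nz
  · intro i
    obtain ⟨k, hk⟩ : (b i).den ∣ ∏ j, (b j).den := Finset.dvd_prod_of_mem _ (Finset.mem_univ i)
    have h1 : (∏ j, (b j).den) / (b i).den = k := by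
      rw [hk, Nat.mul_div_cancel_left _ (b i).den_pos]
    beta_reduce
    rw [h1, hk]
    push_cast
    have h2 : ((b i).num : ℚ) = b i * (b i).den := (Rat.mul_den_eq_num (b i)).symm
    rw [h2]
    ring

/-- powers with a sum as exponent -/
theorem zpow_sum' {k : Type} [Field k] {z : k} (hz : z ≠ 0) {ι : Type} (s : Finset ι) (e : ι → ℤ) :
    z ^ (∑ i ∈ s, e i) = ∏ i ∈ s, z ^ e i := by
  classical
  induction s using Finset.induction_on with
  | empty => simp
  | insert b s hb ih => rw [Finset.sum_insert hb, Finset.prod_insert hb, zpow_add₀ hz, ih]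

section

variable {G : Type} [Field G] (K : Subfield G)
  (hK : ∀ (x : G) (E : ℕ), 1 ≤ E → x ^ E ∈ K → x ∈ K) {m : ℕ} (x : Fin m → G) (hx : ∀ i, x i ≠ 0)

include hK hx

/-- the exponents of elements of a field modulo a subfield -/
theorem mult : ∃ (T : ℕ) (a : Fin m → Fin T → ℚ), ∀ e : Fin m → ℤ,
    ∑ i, (e i : ℚ) • a i = 0 ↔ ∏ i, x i ^ e i ∈ K := by
  classical
  let R0 : Set (Fin m → ℚ) := {v | ∃ e : Fin m → ℤ, v = (fun i => (e i : ℚ)) ∧ ∏ i, x i ^ e i ∈ K}
  let V0 : Submodule ℚ (Fin m → ℚ) := Submodule.span ℚ R0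
  have key : ∀ v ∈ V0, ∃ M : ℕ, 1 ≤ M ∧ (M : ℚ) • v ∈ R0 := by
    intro v hv
    refine Submodule.span_induction (p := fun v _ => ∃ M : ℕ, 1 ≤ M ∧ (M : ℚ) • v ∈ R0)
      ?_ ?_ ?_ ?_ hv
    · intro v hv
      exact ⟨1, le_rfl, by simpa using hv⟩
    · refine ⟨1, le_rfl, fun _ => 0, ?_, by simp⟩
      funext i
      simp
    · rintro v w - - ⟨M, hM, e, he, hc⟩ ⟨M', hM', e', he', hc'⟩
      refine ⟨M * M', Nat.mul_pos hM hM', fun i => M' * e i + M * e' i, ?_, ?_⟩
      · funext i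
        have h1 := congrFun he i
        have h2 := congrFun he' i
        simp only [Pi.smul_apply, Pi.add_apply, smul_eq_mul] at h1 h2 ⊢
        push_cast
        rw [← h1, ← h2]
        ring
      · have h1 : ∀ i, x i ^ ((M' : ℤ) * e i + M * e' i) = (x i ^ e i) ^ M' * (x i ^ e' i) ^ M := by
          intro i
          rw [zpow_add₀ (hx i), mul_comm (M' : ℤ), mul_comm (M : ℤ), zpow_mul, zpow_mul,
            zpow_natCast, zpow_natCast]
        rw [Finset.prod_congr rfl fun i _ => h1 i, Finset.prod_mul_distrib, Finset.prod_pow,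
          Finset.prod_pow]
        exact mul_mem (pow_mem hc _) (pow_mem hc' _)
    · rintro s v - ⟨M, hM, e, he, hc⟩
      refine ⟨M * s.den, Nat.mul_pos hM s.den_pos, fun i => s.num * e i, ?_, ?_⟩
      · funext i
        have h1 := congrFun he i
        simp only [Pi.smul_apply, smul_eq_mul] at h1 ⊢
        push_cast
        rw [← h1, ← Rat.mul_den_eq_num s]
        ring
      · have h1 : ∀ i, x i ^ (s.num * e i) = (x i ^ e i) ^ s.num := by
          intro i
          rw [mul_comm, zpow_mul]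
        rw [Finset.prod_congr rfl fun i _ => h1 i, Finset.prod_zpow]
        exact zpow_mem hc _
  have key2 : ∀ e : Fin m → ℤ, (fun i => (e i : ℚ)) ∈ V0 ↔ ∏ i, x i ^ e i ∈ K := by
    intro e
    constructor
    · intro h
      obtain ⟨M, hM, e', he', hc⟩ := key _ h
      have h1 : ∀ i, e' i = M * e i := by
        intro i
        have := congrFun he' i
        simp only [Pi.smul_apply, smul_eq_mul] at this
        exact_mod_cast this.symm
      refine hK _ M hM ?_
      have h2 : (∏ i, x i ^ e i) ^ M = ∏ i, x i ^ e' i := by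
        rw [← Finset.prod_pow]
        refine Finset.prod_congr rfl fun i _ => ?_
        rw [h1 i, mul_comm, zpow_mul, zpow_natCast]
      rw [h2]
      exact hc
    · intro h
      exact Submodule.subset_span ⟨e, rfl, h⟩
  let Q := (Fin m → ℚ) ⧸ V0
  let β : Module.Basis (Fin (Module.finrank ℚ Q)) ℚ Q := Module.finBasis ℚ Q
  refine ⟨_, fun i => β.equivFun (V0.mkQ (Pi.single i 1)), fun e => ?_⟩
  rw [← key2]
  have h1 : ∑ i, (e i : ℚ) • β.equivFun (V0.mkQ (Pi.single i 1)) =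
      β.equivFun (V0.mkQ (fun i => (e i : ℚ))) := by
    have h2 : (fun i => (e i : ℚ)) = ∑ i, (e i : ℚ) • (Pi.single i (1 : ℚ) : Fin m → ℚ) := by
      funext i
      simp [Finset.sum_apply, Pi.single_apply]
    rw [h2, map_sum, map_sum]
    refine Finset.sum_congr rfl fun i _ => ?_
    rw [map_smul, map_smul]
  rw [h1, LinearEquiv.map_eq_zero_iff, Submodule.mkQ_apply, Submodule.Quotient.mk_eq_zero]

/-- weights -/
theorem weights (D : ℕ) : ∃ α : Fin m → ℤ, ∀ μ μ' : Fin m → ℕ, (∀ i, μ i ≤ D) →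
    (∀ i, μ' i ≤ D) → (∑ i, (μ i : ℤ) * α i = ∑ i, (μ' i : ℤ) * α i ↔
      (∏ i, x i ^ μ i) / ∏ i, x i ^ μ' i ∈ K) := by
  classical
  obtain ⟨T, a, ha⟩ := mult K hK x hx
  let X : Set (Fin T → ℚ) :=
    Set.range fun k : Fin m → Fin (D + 1) => ∑ i, (((k i : ℕ)) : ℚ) • a i
  obtain ⟨l, hl⟩ := exists_form X (Set.finite_range _)
  obtain ⟨N, α, hN, hα⟩ := exists_den' fun i => ∑ j, l j * a i j
  have hX : ∀ μ : Fin m → ℕ, (∀ i, μ i ≤ D) → ∑ i, (μ i : ℚ) • a i ∈ X := by
    intro μ hμ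
    exact ⟨fun i => ⟨μ i, Nat.lt_succ_of_le (hμ i)⟩, rfl⟩
  have hw : ∀ μ : Fin m → ℕ, ((∑ i, (μ i : ℤ) * α i : ℤ) : ℚ) =
      N * ∑ j, l j * (∑ i, (μ i : ℚ) • a i) j := by
    intro μ
    push_cast
    simp only [hα, Finset.sum_apply, Pi.smul_apply, smul_eq_mul, Finset.mul_sum]
    rw [Finset.sum_comm]
    refine Finset.sum_congr rfl fun j _ => Finset.sum_congr rfl fun i _ => by ring
  refine ⟨α, fun μ μ' hμ hμ' => ?_⟩
  have h1 : (∏ i, x i ^ μ i) / ∏ i, x i ^ μ' i = ∏ i, x i ^ ((μ i : ℤ) - μ' i) := by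
    rw [← Finset.prod_div_distrib]
    refine Finset.prod_congr rfl fun i _ => ?_
    rw [zpow_sub₀ (hx i), zpow_natCast, zpow_natCast]
  have h2 : ∑ i, ((((μ i : ℤ) - μ' i : ℤ)) : ℚ) • a i =
      ∑ i, (μ i : ℚ) • a i - ∑ i, (μ' i : ℚ) • a i := by
    rw [← Finset.sum_sub_distrib]
    refine Finset.sum_congr rfl fun i _ => ?_
    rw [← sub_smul]
    push_cast
    rfl
  rw [h1, ← ha, h2, sub_eq_zero]
  constructor
  · intro h
    refine hl _ (hX μ hμ) _ (hX μ' hμ') ?_
    have h3 := congrArg (fun z : ℤ => (z : ℚ)) h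
    simp only [hw] at h3
    exact mul_left_cancel₀ (by exact_mod_cast hN) h3
  · intro h
    have h3 : ((∑ i, (μ i : ℤ) * α i : ℤ) : ℚ) = ((∑ i, (μ' i : ℤ) * α i : ℤ) : ℚ) := by
      rw [hw, hw, h]
    exact_mod_cast h3

end

/-- a subsequence with increasing heights -/
theorem exists_sub {k : Type} [Field k] [NumberField k] (φ : k →+* Qbar) {m : ℕ}
    (f : Fin m → ℕ → k) (h : Set.Infinite (Set.range fun t => fun i => f i t)) :
    ∃ τ : ℕ → ℕ, ∀ j : ℕ, (j : ℝ) ≤ ∑ i, h1 (φ (f i (τ j))) := by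
  classical
  suffices hh : ∀ j : ℕ, ∃ t : ℕ, (j : ℝ) ≤ ∑ i, h1 (φ (f i t)) by
    choose τ hτ using hh
    exact ⟨τ, hτ⟩
  intro j
  by_contra hcon
  push Not at hcon
  apply h
  have hN := Northcott.finite_le (h := fun x : k => logHeight₁ x) (j * finrank ℚ k)
  have hT : {y : Fin m → k | ∀ a, y a ∈ {x : k | logHeight₁ x ≤ j * finrank ℚ k}}.Finite :=
    Set.Finite.pi' fun _ => hN
  have hpos : (0 : ℝ) < finrank ℚ k := by exact_mod_cast Module.finrank_pos
  refine hT.subset ?_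
  rintro _ ⟨t, rfl⟩ a
  have h2 : h1 (φ (f a t)) ≤ j := by
    refine le_trans ?_ (hcon t).le
    exact Finset.single_le_sum (f := fun i => h1 (φ (f i t))) (fun i _ => h1_nonneg _)
      (Finset.mem_univ a)
  rw [h1_eq, div_le_iff₀ hpos] at h2
  exact h2

theorem tor (hsg : SgStmt) : TorStmt := by
  classical
  intro k _ _ S hS m f hf hinf D
  -- the embedding
  obtain ⟨φ⟩ : Nonempty (k →ₐ[ℚ] Qbar) := ⟨IsAlgClosed.lift⟩
  -- the group
  obtain ⟨Γ, hΓ, hΓ2⟩ := hsg k S hS
  have hΓ3 : (Γ.map (Units.map (φ : k →* Qbar))).FG := by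
    obtain ⟨S', hS'⟩ := hΓ
    refine ⟨S'.image (Units.map (φ : k →* Qbar)), ?_⟩
    rw [← hS', MonoidHom.map_closure, Finset.coe_image]
  obtain ⟨ρ, Dg, C0, hD⟩ := exists_grp (Γ.map (Units.map (φ : k →* Qbar))) hΓ3
  have hsq : ∀ i t, ∃ (s : Qbar) (q : Fin ρ → ℤ), s ≠ 0 ∧ h1 s ≤ C0 ∧
      φ (f i t) = s * ((mo Dg.g q : Dg.K) : Qbar) := by
    intro i t
    obtain ⟨M, hM, hM2⟩ := hΓ2 (Units.mk0 (f i t) (hf i t).1) (hf i t)
    exact hD (Units.map (φ : k →* Qbar) (Units.mk0 (f i t) (hf i t).1)) ⟨M, hM, by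
      rw [← map_pow]
      exact Subgroup.mem_map_of_mem _ hM2⟩
  choose s q hs0 hsC hfs using hsq
  -- the subsequence
  obtain ⟨τ, hτ⟩ := exists_sub (φ : k →+* Qbar) f hinf
  obtain ⟨L, hLdef⟩ : ∃ L : ℕ → ℝ, L = fun j => ∑ i, h1 (φ (f i (τ j))) := ⟨_, rfl⟩
  have hL : Tendsto L atTop atTop := by
    rw [hLdef]
    exact tendsto_atTop_mono hτ tendsto_natCast_atTop_atTop
  -- the germs
  let x : Fin m → GQ := fun i => gm fun n => φ (f i (τ n))
  have hx : ∀ i, x i ≠ 0 := by
    intro i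
    rw [gm_ne_zero]
    refine Eventually.of_forall fun n h => (hf i (τ n)).1 ?_
    exact (map_eq_zero φ).1 h
  let ss : Fin m → GQ := fun i => gm fun n => s i (τ n)
  have hss : ∀ i, ss i ∈ KK L hL := fun i =>
    mem_KK_of_le _ C0 (Eventually.of_forall fun n => hsC i (τ n))
  have hss0 : ∀ i, ss i ≠ 0 := fun i => by
    rw [gm_ne_zero]
    exact Eventually.of_forall fun n => hs0 i (τ n)
  have hxs : ∀ i, x i = ss i * yy Dg (fun n => q i (τ n)) := by
    intro i
    show gm _ = gm _ * gm _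
    rw [gm_mul]
    congr 1
    funext n
    exact hfs i (τ n)
  obtain ⟨D', hD'⟩ : ∃ D', D' = max D 1 := ⟨_, rfl⟩
  obtain ⟨α, hα⟩ := weights (KK L hL) (fun x E hE h => mem_of_pow x E hE h) x hx D'
  have e1 : ∀ i : Fin m, ∑ l, ((Pi.single i 1 : Fin m → ℕ) l : ℤ) * α l = α i := by
    intro i
    rw [Finset.sum_eq_single i]
    · simp
    · intro b _ hb
      simp [hb]
    · intro h
      exact absurd (Finset.mem_univ _) h
  have e2 : ∀ i : Fin m, ∏ l, x l ^ (Pi.single i 1 : Fin m → ℕ) l = x i := by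
    intro i
    rw [Finset.prod_eq_single i]
    · simp
    · intro b _ hb
      simp [hb]
    · intro h
      exact absurd (Finset.mem_univ _) h
  have e3 : ∀ i l : Fin m, (Pi.single i 1 : Fin m → ℕ) l ≤ D' := by
    intro i l
    by_cases hl : l = i
    · subst hl; simp [hD']
    · simp [hl]
  have hα1 : ∀ i, α i = 0 ↔ x i ∈ KK L hL := by
    intro i
    have h1 := hα (Pi.single i 1) (fun _ => 0) (e3 i) (fun _ => Nat.zero_le _)
    rw [e1, e2] at h1
    simpa using h1
  have hα2 : ∀ i j, α i = α j ↔ x i / x j ∈ KK L hL := by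
    intro i j
    have h1 := hα (Pi.single i 1) (Pi.single j 1) (e3 i) (e3 j)
    rw [e1, e1, e2, e2] at h1
    exact h1
  refine ⟨Ultrafilter.map τ UU, α, ?_, ?_, ?_, ?_⟩
  · by_contra hcon
    push Not at hcon
    have h1 : ∀ i, ∀ᶠ n in (UU : Filter ℕ),
        Pool.Agent.Y215.SK.h1 (φ (f i (τ n))) ≤ (1 / (2 * (m + 1) : ℝ)) * L n := by
      intro i
      have h2 := (hα1 i).1 (hcon i)
      exact (mem_KK _).1 h2 _ (by positivity)
    obtain ⟨n, h2, h3⟩ := ((eventually_all.2 h1).and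
      (ev_of_atTop (hL.eventually_ge_atTop 1))).exists
    have h4 : L n ≤ ∑ i : Fin m, (1 / (2 * (m + 1) : ℝ)) * L n := by
      conv_lhs => rw [hLdef]
      exact Finset.sum_le_sum fun i _ => h2 i
    rw [Finset.sum_const, Finset.card_univ, Fintype.card_fin, nsmul_eq_mul] at h4
    have h5 : (m : ℝ) * (1 / (2 * (m + 1) : ℝ) * L n) ≤ 1 / 2 * L n := by
      have h6 : (m : ℝ) * (1 / (2 * (m + 1) : ℝ)) ≤ 1 / 2 := by
        rw [mul_one_div, div_le_iff₀ (by positivity)]
        linarith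
      calc (m : ℝ) * (1 / (2 * (m + 1) : ℝ) * L n) = (m : ℝ) * (1 / (2 * (m + 1) : ℝ)) * L n := by
            ring
        _ ≤ _ := mul_le_mul_of_nonneg_right h6 (by linarith)
    linarith
  · intro i hi
    rw [hα1]
    have h2 : x i = 1 := by
      show gm (fun n => φ (f i (τ n))) = 1
      simp only [hi, map_one]
      rfl
    rw [h2]
    exact one_mem _
  · intro i j hij
    rw [hα2]
    have h2 : x i = x j := by
      show gm (fun n => φ (f i (τ n))) = gm (fun n => φ (f j (τ n)))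
      simp only [hij]
    rw [h2, div_self (hx j)]
    exact one_mem _
  · intro F hF hev
    let wt : F.support → ℤ := fun a => ∑ i, ((a : Fin m →₀ ℕ) i : ℤ) * α i
    have hle : ∀ a : F.support, ∀ i, (a : Fin m →₀ ℕ) i ≤ D' := by
      intro a i
      calc (a : Fin m →₀ ℕ) i ≤ ∑ i, (a : Fin m →₀ ℕ) i :=
            Finset.single_le_sum (f := fun i => (a : Fin m →₀ ℕ) i) (fun _ _ => Nat.zero_le _)
              (Finset.mem_univ i)
        _ ≤ F.totalDegree := by
            have h1 := MvPolynomial.le_totalDegree a.2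
            rwa [Finsupp.sum_fintype _ _ (fun _ => rfl)] at h1
        _ ≤ D := hF
        _ ≤ D' := by rw [hD']; exact le_max_left _ _
    let qq : ℕ → F.support → Fin ρ → ℤ := fun n a =>
      ∑ i, ((a : Fin m →₀ ℕ) i : ℤ) • q i (τ n)
    have hqq : ∀ a : F.support, yy Dg (fun n => qq n a) =
        ∏ i, yy Dg (fun n => q i (τ n)) ^ ((a : Fin m →₀ ℕ) i) := fun a =>
      yy_sum Dg Finset.univ (fun i => (a : Fin m →₀ ℕ) i) (fun n i => q i (τ n))
    let c : F.support → GQ := fun a => cst (algebraMap ℚ Qbar (F.coeff a)) *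
      ∏ i, ss i ^ ((a : Fin m →₀ ℕ) i)
    have hc : ∀ a, c a ∈ KK L hL := fun a =>
      mul_mem (cst_mem _) (prod_mem fun i _ => pow_mem (hss i) _)
    -- the monomials
    have hmon : ∀ a : F.support, ∏ i, x i ^ ((a : Fin m →₀ ℕ) i) =
        (∏ i, ss i ^ ((a : Fin m →₀ ℕ) i)) * yy Dg (fun n => qq n a) := by
      intro a
      rw [hqq, ← Finset.prod_mul_distrib]
      refine Finset.prod_congr rfl fun i _ => ?_
      rw [hxs, mul_pow]
    have hterm : ∀ a : F.support, c a * yy Dg (fun n => qq n a) =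
        gm (fun n => φ (algebraMap ℚ k (F.coeff a) * ∏ i, f i (τ n) ^ ((a : Fin m →₀ ℕ) i))) := by
      intro a
      show cst (algebraMap ℚ Qbar (F.coeff a)) * _ * _ = _
      rw [mul_assoc, ← hmon]
      have h1 : ∏ i, x i ^ ((a : Fin m →₀ ℕ) i) =
          gm (fun n => ∏ i, φ (f i (τ n)) ^ ((a : Fin m →₀ ℕ) i)) := by
        rw [← gm_prod]
        rfl
      rw [h1]
      show gm (fun _ => algebraMap ℚ Qbar (F.coeff a)) * _ = _
      rw [gm_mul]
      congr 1
      funext n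
      rw [map_mul, map_prod, AlgHom.commutes]
      simp only [map_pow]
    have haev : ∀ t, ∑ a : F.support, algebraMap ℚ k (F.coeff a) *
        ∏ i, f i t ^ ((a : Fin m →₀ ℕ) i) = 0 := by
      intro t
      rw [← hev t, MvPolynomial.aeval_def, MvPolynomial.eval₂_eq']
      exact Finset.sum_coe_sort F.support
        (fun a => algebraMap ℚ k (F.coeff a) * ∏ i, f i t ^ (a i))
    have hsum : ∑ a, c a * yy Dg (fun n => qq n a) = 0 := by
      rw [Finset.sum_congr rfl fun a _ => hterm a, gm_sum, gm_eq_zero]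
      refine Eventually.of_forall fun n => ?_
      rw [← map_sum, haev, map_zero]
    obtain ⟨g, hg1, hg2⟩ := exists_rep (fun a b : F.support => wt a = wt b)
      ⟨fun _ => rfl, fun h => h.symm, fun h h' => h.trans h'⟩
    have hgw : ∀ a b, g a = g b ↔ yy Dg (fun n => qq n a) / yy Dg (fun n => qq n b) ∈
        KK L hL := by
      intro a b
      rw [hg1]
      have h1 := hα (fun i => (a : Fin m →₀ ℕ) i) (fun i => (b : Fin m →₀ ℕ) i) (hle a) (hle b)
      show (∑ i, ((a : Fin m →₀ ℕ) i : ℤ) * α i = ∑ i, ((b : Fin m →₀ ℕ) i : ℤ) * α i) ↔ _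
      rw [h1]
      show (∏ i, x i ^ ((a : Fin m →₀ ℕ) i)) / ∏ i, x i ^ ((b : Fin m →₀ ℕ) i) ∈ KK L hL ↔ _
      rw [hmon, hmon]
      have h2 : ∀ a : F.support, ∏ i, ss i ^ ((a : Fin m →₀ ℕ) i) ∈ KK L hL := fun a =>
        prod_mem fun i _ => pow_mem (hss i) _
      have h3 : ∀ a : F.support, ∏ i, ss i ^ ((a : Fin m →₀ ℕ) i) ≠ 0 := fun a =>
        Finset.prod_ne_zero_iff.2 fun i _ => pow_ne_zero _ (hss0 i)
      have ha2 := h2 a
      have hb2 := h2 b
      have ha3 := h3 a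
      have hb3 := h3 b
      have ha4 := yy_ne Dg (fun n => qq n a)
      have hb4 := yy_ne Dg (fun n => qq n b)
      constructor
      · intro h
        have h5 := mul_mem h (div_mem hb2 ha2)
        convert h5 using 1
        field_simp
      · intro h
        have h5 := mul_mem h (div_mem ha2 hb2)
        convert h5 using 1
        field_simp
    have hcl : ∀ b, ∀ᶠ n in (UU : Filter ℕ), ∑ a ∈ Finset.univ.filter (fun a => wt a = wt b),
        algebraMap ℚ k (F.coeff a) * ∏ i, f i (τ n) ^ ((a : Fin m →₀ ℕ) i) = 0 := by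
      intro b
      have h1 := class_sums Dg L hL qq c hc hsum g hgw hg2 (g b)
      rw [Finset.sum_congr rfl fun a _ => hterm a, gm_sum, gm_eq_zero] at h1
      filter_upwards [h1] with n hn
      rw [← map_sum, map_eq_zero] at hn
      rw [← hn]
      refine Finset.sum_congr ?_ fun _ _ => rfl
      ext a
      rw [Finset.mem_filter, Finset.mem_filter, hg1]
    have hall : ∀ᶠ t in ((Ultrafilter.map τ UU : Ultrafilter ℕ) : Filter ℕ), ∀ b : F.support,
        ∑ a ∈ Finset.univ.filter (fun a => wt a = wt b),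
          algebraMap ℚ k (F.coeff a) * ∏ i, f i t ^ ((a : Fin m →₀ ℕ) i) = 0 := by
      rw [Ultrafilter.coe_map, eventually_map]
      exact eventually_all.2 hcl
    filter_upwards [hall] with t ht z hz
    have e4 : MvPolynomial.aeval (fun i => f i t * z ^ α i) F =
        ∑ a : F.support, algebraMap ℚ k (F.coeff a) * (∏ i, f i t ^ ((a : Fin m →₀ ℕ) i)) *
          z ^ wt a := by
      rw [MvPolynomial.aeval_def, MvPolynomial.eval₂_eq', ← Finset.sum_coe_sort]
      refine Finset.sum_congr rfl fun a _ => ?_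
      rw [mul_assoc]
      congr 1
      have h2 : z ^ wt a = ∏ i, (z ^ α i) ^ (a : Fin m →₀ ℕ) i := by
        change z ^ (∑ i, ((a : Fin m →₀ ℕ) i : ℤ) * α i) = _
        rw [zpow_sum' hz]
        refine Finset.prod_congr rfl fun i _ => ?_
        rw [mul_comm, zpow_mul, zpow_natCast]
      rw [h2, ← Finset.prod_mul_distrib]
      refine Finset.prod_congr rfl fun i _ => ?_
      rw [mul_pow]
    rw [e4]
    rw [← Finset.sum_fiberwise_of_maps_to (s := Finset.univ) (t := Finset.univ.image wt) (g := wt)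
      (fun j _ => Finset.mem_image_of_mem _ (Finset.mem_univ j))]
    refine Finset.sum_eq_zero fun w hwm => ?_
    obtain ⟨b, -, rfl⟩ := Finset.mem_image.1 hwm
    have h3 : ∀ a ∈ Finset.univ.filter (fun a => wt a = wt b),
        algebraMap ℚ k (F.coeff a) * (∏ i, f i t ^ ((a : Fin m →₀ ℕ) i)) * z ^ wt a =
          algebraMap ℚ k (F.coeff a) * (∏ i, f i t ^ ((a : Fin m →₀ ℕ) i)) * z ^ wt b := by
      intro a ha
      rw [(Finset.mem_filter.1 ha).2]
    rw [Finset.sum_congr rfl h3, ← Finset.sum_mul, ht b, zero_mul]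

end Pool.Agent.Y734.N.TOR
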